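import Mathlib

namespace Pool.Agent.Results.MP_25dd1e_co.Double

open Finset

/-- `a 0, ..., a n` is acceptable for `b, c` -/
def Acc (b c n : ℕ) (a : ℕ → ℤ) : Prop :=
  a 0 = 0 ∧ (∀ i, i < n → a i < a (i + 1)) ∧ ∀ i, i + b ≤ n → a (i + b) ≤ a i + c

def Hits (k n : ℕ) (a : ℕ → ℤ) : Prop := ∃ i j, i < j ∧ j ≤ n ∧ a j = a i + k

lemma mono {n : ℕ} {a : ℕ → ℤ} (h : ∀ i, i < n → a i < a (i + 1)) {i j : ℕ} (hij : i < j)
    (hj : j ≤ n) : a i < a j := by
  induction j with
  | zero => omega
  | succ j ih =>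
    rcases Nat.lt_succ_iff_lt_or_eq.1 hij with e | e
    · exact (ih e (by omega)).trans (h j (by omega))
    · rw [e]; exact h j (by omega)

lemma pigeon {k n : ℕ} (hk : 0 < k) {a : ℕ → ℤ} (h : ∀ i, i < n → a i < a (i + 1))
    (hn : ¬ Hits k n a) {i : ℕ} (hi : i + k ≤ n) : a i + 2 * k ≤ a (i + k) := by
  by_contra hlt
  have hk' : (0 : ℤ) < k := by exact_mod_cast hk
  obtain ⟨x, hx, y, hy, hne, e⟩ := exists_ne_map_eq_of_card_lt_of_maps_to (s := range (k + 1))
    (t := Ico (0 : ℤ) k) (f := fun j => a (i + j) % k) (by simp) (fun j _ => by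
      simp only [coe_Ico, Set.mem_Ico]
      exact ⟨Int.emod_nonneg _ hk'.ne', Int.emod_lt_of_pos _ hk'⟩)
  rw [mem_range] at hx hy
  wlog hxy : x < y generalizing x y
  · exact this y hy x hx hne.symm e.symm (by omega)
  obtain ⟨m, hm⟩ := Int.ModEq.dvd (show a (i + x) ≡ a (i + y) [ZMOD k] from e)
  have h1 := mono h (i := i + x) (j := i + y) (by omega) (by omega)
  have h2 : a i ≤ a (i + x) := by
    rcases Nat.eq_zero_or_pos x with rfl | h0
    · simp
    · exact (mono h (by omega) (by omega)).le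
  have h3 : a (i + y) ≤ a (i + k) := by
    rcases Nat.lt_succ_iff_lt_or_eq.1 hy with h0 | rfl
    · exact (mono h (by omega) (by omega)).le
    · exact le_rfl
  have m0 : 0 < m := by
    by_contra h0
    nlinarith
  have m2 : m < 2 := by
    by_contra h0
    nlinarith
  have : m = 1 := by omega
  subst this
  exact hn ⟨i + x, i + y, by omega, by omega, by linarith⟩

lemma upper {g b h : ℕ} (hg : 0 < g) (hb : 0 < b) (hh : 0 < h) (hc : Nat.Coprime b (2 * h))
    (a : ℕ → ℤ) (ha : Acc (g * b) (2 * (g * b)) (g * (b + 2 * h - 1)) a) :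
    Hits (g * (2 * h)) (g * (b + 2 * h - 1)) a := by
  by_contra hn
  obtain ⟨a0, a1, a2⟩ := ha
  set m := b + 2 * h with hm
  let e : ℕ → ℤ := fun j => a (g * j) - 2 * g * j
  have e1 : ∀ j, j + b < m → e (j + b) ≤ e j := by
    intro j hj
    have := a2 (g * j) (by rw [← mul_add]; exact Nat.mul_le_mul_left _ (by omega))
    simp only [e]
    rw [mul_add]
    push_cast at this ⊢
    linarith
  have e2 : ∀ j, j + 2 * h < m → e j ≤ e (j + 2 * h) := by
    intro j hj
    have := pigeon (by positivity) a1 hn (i := g * j)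
      (by rw [← mul_add]; exact Nat.mul_le_mul_left _ (by omega))
    simp only [e]
    rw [mul_add]
    push_cast at this ⊢
    linarith
  have st : Antitone (fun t => e (b * t % m)) := by
    apply antitone_nat_of_succ_le
    intro t
    have h1 : b * t % m < m := Nat.mod_lt _ (by omega)
    rw [mul_add, mul_one, ← Nat.mod_add_mod]
    generalize b * t % m = r at *
    by_cases c : r + b < m
    · rw [Nat.mod_eq_of_lt c]; exact e1 r c
    · rw [Nat.mod_eq_sub_mod (by omega), Nat.mod_eq_of_lt (by omega)]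
      have := e2 (r + b - m) (by omega)
      rwa [show r + b - m + 2 * h = r by omega] at this
  have hc' : Nat.Coprime b m := by rw [hm]; simpa using hc
  obtain ⟨t, ht, e3⟩ := Nat.exists_mul_mod_eq_of_coprime h hc' (by omega)
  rw [Nat.mod_eq_of_lt (show h < m by omega)] at e3
  have s1 := st (Nat.zero_le t)
  have s2 := st ht.le
  simp only [e3, mul_zero, Nat.zero_mod, Nat.mul_mod_left] at s1 s2
  refine hn ⟨0, g * h, by positivity, Nat.mul_le_mul_left _ (by omega), ?_⟩
  simp only [e, mul_zero, a0] at s1 s2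
  push_cast at s1 s2 ⊢
  linarith

lemma lower {g b h : ℕ} (hg : 0 < g) (hh : 0 < h) (hc : Nat.Coprime b (2 * h)) {n : ℕ}
    (hn : n < g * (b + 2 * h - 1)) :
    ∃ a, Acc (g * b) (2 * (g * b)) n a ∧ ¬ Hits (g * (2 * h)) n a := by
  obtain ⟨u, -, hu⟩ := Nat.exists_mul_mod_eq_one_of_coprime hc (by omega)
  let τ : ℕ → ℕ := fun j => (j + 1) * u % (2 * h)
  let z : ℕ → ℕ := fun j => if 1 ≤ τ j ∧ τ j ≤ h then 1 else 0
  have z1 : ∀ j, z j ≤ 1 := fun j => by simp only [z]; split_ifs <;> omega
  have t0 : ∀ j, τ j < 2 * h := fun j => Nat.mod_lt _ (by omega)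
  have t1 : ∀ j, τ (j + b) = (τ j + 1) % (2 * h) := by
    intro j
    simp only [τ]
    rw [show (j + b + 1) * u = (j + 1) * u + b * u by ring, Nat.add_mod, hu]
  have t2 : ∀ j, τ (j + h) = (τ j + h) % (2 * h) := by
    intro j
    have : u % 2 = 1 := by
      have := congrArg (· % 2) hu
      simp only [Nat.mod_mul_right_mod] at this
      rcases Nat.mod_two_eq_zero_or_one u with e | e
      · rw [Nat.mul_mod, e] at this; simp at this
      · exact e
    obtain ⟨w, rfl⟩ : ∃ w, u = 2 * w + 1 := ⟨u / 2, by omega⟩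
    simp only [τ]
    rw [show (j + h + 1) * (2 * w + 1) = (j + 1) * (2 * w + 1) + h + 2 * h * w by ring,
      Nat.add_mul_mod_self_left, Nat.mod_add_mod]
  have t3 : ∀ j, j + 1 < 2 * h → τ j ≠ 0 := by
    intro j hj e
    have h1 : 2 * h ∣ (j + 1) * u := Nat.dvd_of_mod_eq_zero e
    have h2 : Nat.Coprime (2 * h) u := by
      apply Nat.Coprime.symm
      apply Nat.coprime_of_mul_modEq_one b
      unfold Nat.ModEq
      rw [mul_comm, hu, Nat.mod_eq_of_lt (by omega)]
    have := Nat.le_of_dvd (by omega) (h2.dvd_of_dvd_mul_right h1)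
    omega
  have md : ∀ x, x < 4 * h → x % (2 * h) = if x < 2 * h then x else x - 2 * h := by
    intro x hx
    split_ifs with c
    · exact Nat.mod_eq_of_lt c
    · rw [Nat.mod_eq_sub_mod (by omega), Nat.mod_eq_of_lt (by omega)]
  have z2 : ∀ j, j + 1 < 2 * h → z (j + b) ≤ z j := by
    intro j hj
    have := t0 j
    have := t3 j hj
    simp only [z]
    rw [t1, md _ (by omega)]
    split_ifs <;> omega
  have z3 : ∀ j, z (j + h) ≠ z j := by
    intro j
    have := t0 j
    simp only [z]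
    rw [t2, md _ (by omega)]
    split_ifs <;> omega
  refine ⟨fun i => ((g * (2 * (i / g) + z (i / g)) + i % g : ℕ) : ℤ) - (g * z 0 : ℕ), ⟨by simp,
    fun i _ => ?_, fun i hi => ?_⟩, ?_⟩
  · rw [sub_lt_sub_iff_right, Nat.cast_lt]
    have h1 := Nat.mod_lt i hg
    by_cases c : i % g + 1 < g
    · have e1 : (i + 1) / g = i / g := by
        rw [Nat.add_div hg]
        have : 1 < g := by omega
        simp [Nat.div_eq_of_lt this, Nat.mod_eq_of_lt this]; omega
      have e2 : (i + 1) % g = i % g + 1 := by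
        rw [← Nat.mod_add_mod, Nat.mod_eq_of_lt c]
      rw [e1, e2]; omega
    · have e2 : (i + 1) % g = 0 := by
        rw [← Nat.mod_add_mod, show i % g + 1 = g by omega, Nat.mod_self]
      have e1 : (i + 1) / g = i / g + 1 := by
        rw [Nat.succ_div, if_pos (Nat.dvd_of_mod_eq_zero e2)]
      rw [e1, e2]
      have := z1 (i / g)
      nlinarith [Nat.zero_le (g * z (i / g + 1))]
  · have e1 : (i + g * b) / g = i / g + b := Nat.add_mul_div_left _ _ hg
    have e2 : (i + g * b) % g = i % g := Nat.add_mul_mod_self_left _ _ _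
    have e3 : i / g + b < b + 2 * h - 1 := by
      rw [← e1]; exact Nat.div_lt_of_lt_mul (by omega)
    have := z2 (i / g) (by omega)
    simp only [e1, e2]
    have : g * z (i / g + b) ≤ g * z (i / g) := Nat.mul_le_mul_left _ this
    have : (g : ℤ) * z (i / g + b) ≤ g * z (i / g) := by exact_mod_cast this
    push_cast
    linarith
  · rintro ⟨i, j, -, -, e⟩
    have e1 : g * (2 * (j / g) + z (j / g)) + j % g =
        g * (2 * (i / g) + z (i / g) + 2 * h) + i % g := by
      have : ((g * (2 * (j / g) + z (j / g)) + j % g : ℕ) : ℤ) =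
          ((g * (2 * (i / g) + z (i / g)) + i % g : ℕ) : ℤ) + (g * (2 * h) : ℕ) := by linarith
      have : g * (2 * (j / g) + z (j / g)) + j % g =
          g * (2 * (i / g) + z (i / g)) + i % g + g * (2 * h) := by exact_mod_cast this
      rw [this]; ring
    have e2 := congrArg (· / g) e1
    simp only [Nat.mul_add_div hg, Nat.div_eq_of_lt (Nat.mod_lt _ hg), add_zero] at e2
    have := z1 (i / g)
    have := z1 (j / g)
    have := z3 (i / g)
    rw [show i / g + h = j / g by omega] at this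
    omega

theorem result (b k : ℕ) (hb : 0 < b) (hk : 0 < k) (hv : padicValNat 2 b < padicValNat 2 k) :
    IsLeast {n | 1 ≤ n ∧ ∀ a, Acc b (2 * b) n a → Hits k n a} (b + k - Nat.gcd b k) := by
  obtain ⟨g, b', k', hg, hc, rfl, rfl⟩ := Nat.exists_coprime' (Nat.gcd_pos_of_pos_left k hb)
  have hb' : 0 < b' := Nat.pos_of_mul_pos_right hb
  have hk' : 0 < k' := Nat.pos_of_mul_pos_right hk
  have h2 : 2 ∣ k' := by
    by_contra h
    rw [padicValNat.mul hb'.ne' hg.ne', padicValNat.mul hk'.ne' hg.ne',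
      padicValNat.eq_zero_of_not_dvd h] at hv
    omega
  obtain ⟨h, rfl⟩ := h2
  have e : b' * g + 2 * h * g - Nat.gcd (b' * g) (2 * h * g) = g * (b' + 2 * h - 1) := by
    rw [Nat.gcd_mul_right, hc, Nat.mul_sub, mul_add]; ring_nf
  rw [e, mul_comm b' g, mul_comm (2 * h) g]
  refine ⟨⟨Nat.mul_pos hg (by omega), upper hg hb' (by omega) hc⟩, fun n hn => ?_⟩
  by_contra hlt
  obtain ⟨a, h1, h3⟩ := lower hg (by omega) hc (not_le.1 hlt)
  exact h3 (hn.2 a h1)

end Pool.Agent.Results.MP_25dd1e_co.Double
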